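import Pool.Agent.H53.EFS.Main

/-!
Envy-free partitions for families living in different places: final statements.
-/

namespace Pool.Agent.H53.EFS

open Finset MeasureTheory

/-- the points seen clearly on the right side of all hyperplanes -/
def cl {d m : ℕ} (A : Finset (Fin m) → EuclideanSpace ℝ (Fin d) × ℝ) (r : Fin m) (M : ℕ) :
    Set (EuclideanSpace ℝ (Fin d)) :=
  {y | ‖y‖ ≤ M ∧ (∀ I, r ∈ I → 1 / ((M : ℝ) + 1) ≤ aff (A I) y) ∧
    (∀ I, r ∉ I → aff (A I) y ≤ -(1 / ((M : ℝ) + 1)))}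

theorem cl_closed {d m : ℕ} (A : Finset (Fin m) → EuclideanSpace ℝ (Fin d) × ℝ) (r : Fin m)
    (M : ℕ) : IsClosed (cl A r M) := by
  have : cl A r M = {y | ‖y‖ ≤ M} ∩ ((⋂ I, ⋂ (_ : r ∈ I),
      {y | 1 / ((M : ℝ) + 1) ≤ aff (A I) y}) ∩ ⋂ I, ⋂ (_ : r ∉ I),
      {y | aff (A I) y ≤ -(1 / ((M : ℝ) + 1))}) := by
    ext y
    simp only [cl, Set.mem_ofPred_eq, Set.mem_inter_iff, Set.mem_iInter]
  rw [this]
  apply IsClosed.inter
  · exact isClosed_le continuous_norm continuous_const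
  · apply IsClosed.inter
    · exact isClosed_iInter fun I => isClosed_iInter fun _ =>
        isClosed_le continuous_const (aff_cont _)
    · exact isClosed_iInter fun I => isClosed_iInter fun _ =>
        isClosed_le (aff_cont _) continuous_const

theorem cl_mono {d m : ℕ} (A : Finset (Fin m) → EuclideanSpace ℝ (Fin d) × ℝ) (r : Fin m) :
    Monotone (cl A r) := by
  intro M M' hM y hy
  have h1 : (M : ℝ) ≤ M' := by exact_mod_cast hM
  have h0 : (0 : ℝ) ≤ M := Nat.cast_nonneg M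
  have h2 : 1 / ((M' : ℝ) + 1) ≤ 1 / ((M : ℝ) + 1) := by
    apply one_div_le_one_div_of_le (by positivity)
    linarith
  refine ⟨hy.1.trans h1, fun I hI => h2.trans (hy.2.1 I hI), fun I hI => ?_⟩
  have := hy.2.2 I hI
  linarith

theorem cl_union {d m : ℕ} (A : Finset (Fin m) → EuclideanSpace ℝ (Fin d) × ℝ) (r : Fin m)
    (y : EuclideanSpace ℝ (Fin d)) (h1 : ∀ I, r ∈ I → 0 < aff (A I) y)
    (h2 : ∀ I, r ∉ I → aff (A I) y < 0) : ∃ M, y ∈ cl A r M := by
  have hlim : Filter.Tendsto (fun M : ℕ => 1 / ((M : ℝ) + 1)) Filter.atTop (nhds 0) :=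
    tendsto_one_div_add_atTop_nhds_zero_nat
  have e1 : ∀ᶠ M : ℕ in Filter.atTop, ∀ I : Finset (Fin m), r ∈ I →
      1 / ((M : ℝ) + 1) ≤ aff (A I) y := by
    rw [Filter.eventually_all]
    intro I
    by_cases hI : r ∈ I
    · filter_upwards [hlim.eventually (gt_mem_nhds (h1 I hI))] with M hM _
      exact hM.le
    · exact Filter.Eventually.of_forall fun M h => absurd h hI
  have e2 : ∀ᶠ M : ℕ in Filter.atTop, ∀ I : Finset (Fin m), r ∉ I →
      aff (A I) y ≤ -(1 / ((M : ℝ) + 1)) := by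
    rw [Filter.eventually_all]
    intro I
    by_cases hI : r ∉ I
    · have h3 : 0 < -aff (A I) y := neg_pos.mpr (h2 I hI)
      filter_upwards [hlim.eventually (gt_mem_nhds h3)] with M hM _
      linarith
    · exact Filter.Eventually.of_forall fun M h => absurd h hI
  have e3 : ∀ᶠ M : ℕ in Filter.atTop, ‖y‖ ≤ M := by
    obtain ⟨M0, hM0⟩ := exists_nat_ge ‖y‖
    filter_upwards [Filter.eventually_ge_atTop M0] with M hM
    refine hM0.trans ?_
    exact_mod_cast hM
  obtain ⟨M, h3, h4, h5⟩ := (e3.and (e1.and e2)).exists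
  exact ⟨M, h3, h4, h5⟩

theorem partA (n d m : ℕ) (hn : 0 < n) (hmd : m ≤ d) (b : Fin m → ℕ) (ι : Fin m → Type)
    [∀ r, Fintype (ι r)] (hι : ∀ r, Fintype.card (ι r) = b r * n)
    (K : Fin m → Set (EuclideanSpace ℝ (Fin d)))
    (hsep : ∀ I : Finset (Fin m), ∃ (a : EuclideanSpace ℝ (Fin d)) (c : ℝ),
      (∀ r ∈ I, ∀ y ∈ K r, c < inner ℝ a y) ∧ (∀ r ∉ I, ∀ y ∈ K r, inner ℝ a y < c))
    (μ : ∀ r, ι r → Measure (EuclideanSpace ℝ (Fin d)))
    (hμ : ∀ r i, IsProbabilityMeasure (μ r i))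
    (hac : ∀ r i, (μ r i).AbsolutelyContinuous volume)
    (hK : ∀ r i, (n : ENNReal) * μ r i (K r)ᶜ < 1) :
    ∃ C : Fin n → Set (EuclideanSpace ℝ (Fin d)),
      (∀ k, Convex ℝ (C k)) ∧ (∀ k, IsClosed (C k)) ∧ (⋃ k, C k) = Set.univ ∧
      (∀ k l, k ≠ l → Disjoint (interior (C k)) (interior (C l))) ∧
      ∀ r, ∃ π : ι r → Fin n, (∀ k, Nat.card {i // π i = k} = b r) ∧
        ∀ i k, μ r i (C k) ≤ μ r i (C (π i)) := by
  classical
  obtain ⟨N, rfl⟩ : ∃ N, n = N + 1 := ⟨n - 1, by omega⟩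
  choose a0 c0 hac1 hac2 using hsep
  let A : Finset (Fin m) → EuclideanSpace ℝ (Fin d) × ℝ := fun I => (a0 I, c0 I)
  have hev : ∀ r i, ∀ᶠ M : ℕ in Filter.atTop, ((N : ENNReal) + 1) * μ r i (cl A r M)ᶜ < 1 := by
    intro r i
    have := hμ r i
    have h1 : Filter.Tendsto (fun M : ℕ => μ r i (cl A r M)ᶜ) Filter.atTop
        (nhds (μ r i (⋂ M : ℕ, (cl A r M)ᶜ))) := by
      apply tendsto_measure_iInter_atTop
      · intro M
        exact (cl_closed A r M).measurableSet.compl.nullMeasurableSet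
      · intro M M' hM
        exact Set.compl_subset_compl.mpr (cl_mono A r hM)
      · exact ⟨0, measure_ne_top _ _⟩
    have h2 : (⋂ M : ℕ, (cl A r M)ᶜ) ⊆ (K r)ᶜ := by
      intro y hy hyK
      obtain ⟨M, hM⟩ := cl_union A r y
        (fun I hI => by
          have := hac1 I r hI y hyK
          change 0 < inner ℝ (a0 I) y - c0 I
          linarith)
        (fun I hI => by
          have := hac2 I r hI y hyK
          change inner ℝ (a0 I) y - c0 I < 0
          linarith)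
      exact Set.mem_iInter.mp hy M hM
    have h3 : ((N : ENNReal) + 1) * μ r i (⋂ M : ℕ, (cl A r M)ᶜ) < 1 := by
      have h4 := hK r i
      push_cast at h4
      exact lt_of_le_of_lt (mul_le_mul_right (measure_mono h2) _) h4
    have h5 : Filter.Tendsto (fun M : ℕ => ((N : ENNReal) + 1) * μ r i (cl A r M)ᶜ) Filter.atTop
        (nhds (((N : ENNReal) + 1) * μ r i (⋂ M : ℕ, (cl A r M)ᶜ))) :=
      ENNReal.Tendsto.const_mul h1 (Or.inr (by finiteness))
    exact h5.eventually (gt_mem_nhds h3)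
  have hev2 : ∀ᶠ M : ℕ in Filter.atTop, ∀ r i, ((N : ENNReal) + 1) * μ r i (cl A r M)ᶜ < 1 := by
    rw [Filter.eventually_all]
    intro r
    rw [Filter.eventually_all]
    exact fun i => hev r i
  obtain ⟨M, hM⟩ := hev2.exists
  obtain ⟨G, hGc, hG0, hG1, hG2⟩ := hyp hmd A M (1 / ((M : ℝ) + 1)) (Nat.cast_nonneg M)
    (by positivity)
  obtain ⟨x, hx⟩ := core b ι hι μ hμ hac G hGc hG0 (fun r => cl A r M) hM
    (fun s hs r hr y hy => hG1 s hs r hr y hy.1 (fun I hI => hy.2.1 I hI))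
    (fun s hs r hr y hy => hG2 s hs r hr y hy.1 (fun I hI => hy.2.2 I hI))
  exact ⟨pc G x, pc_convex G x, pc_closed G x, pc_cover G x, pc_disj G hG0 x, hx⟩

/-- affinely independent points are separated by hyperplanes in all ways -/
theorem sep_points {d m : ℕ} (v : Fin m → EuclideanSpace ℝ (Fin d)) (hv : AffineIndependent ℝ v)
    (I : Finset (Fin m)) : ∃ (a : EuclideanSpace ℝ (Fin d)) (c : ℝ),
      (∀ r ∈ I, inner ℝ a (v r) = c + 1) ∧ (∀ r ∉ I, inner ℝ a (v r) = c - 1) := by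
  classical
  have hli : LinearIndependent ℝ
      (fun r => ((v r, (1 : ℝ)) : EuclideanSpace ℝ (Fin d) × ℝ)) := by
    rw [Fintype.linearIndependent_iff]
    intro w hw
    rw [affineIndependent_iff] at hv
    have h1 : ∑ r, w r • v r = 0 := by
      have := congrArg Prod.fst hw
      simpa [Prod.fst_sum] using this
    have h2 : ∑ r, w r = 0 := by
      have := congrArg Prod.snd hw
      simpa [Prod.snd_sum] using this
    intro i
    exact hv Finset.univ w h2 h1 i (Finset.mem_univ i)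
  let φ0 := (Module.Basis.span hli).constr ℝ (fun r => if r ∈ I then (1 : ℝ) else -1)
  obtain ⟨φ, hφ⟩ := LinearMap.exists_extend φ0
  have hφv : ∀ r, φ (v r, 1) = if r ∈ I then (1 : ℝ) else -1 := by
    intro r
    have h1 : φ0 (Module.Basis.span hli r) = if r ∈ I then (1 : ℝ) else -1 := by
      simp only [φ0, Module.Basis.constr_basis]
    rw [← h1, ← hφ]
    simp [Module.Basis.span_apply]
  let ψ : EuclideanSpace ℝ (Fin d) →ₗ[ℝ] ℝ := φ.comp (LinearMap.inl ℝ _ ℝ)
  let a : EuclideanSpace ℝ (Fin d) :=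
    (InnerProductSpace.toDual ℝ (EuclideanSpace ℝ (Fin d))).symm (LinearMap.toContinuousLinearMap ψ)
  have ha : ∀ y, inner ℝ a y = φ (y, 0) := by
    intro y
    simp only [a, InnerProductSpace.toDual_symm_apply]
    rfl
  refine ⟨a, -φ (0, 1), ?_, ?_⟩
  · intro r hr
    have h1 := hφv r
    rw [if_pos hr] at h1
    have h2 : ((v r, (1 : ℝ)) : EuclideanSpace ℝ (Fin d) × ℝ) = (v r, 0) + (0, 1) := by simp
    rw [h2, map_add] at h1
    rw [ha]
    linarith
  · intro r hr
    have h1 := hφv r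
    rw [if_neg hr] at h1
    have h2 : ((v r, (1 : ℝ)) : EuclideanSpace ℝ (Fin d) × ℝ) = (v r, 0) + (0, 1) := by simp
    rw [h2, map_add] at h1
    rw [ha]
    linarith

theorem partB (n d m : ℕ) (hn : 0 < n) (hmd : m ≤ d) (b : Fin m → ℕ) (ι : Fin m → Type)
    [∀ r, Fintype (ι r)] (hι : ∀ r, Fintype.card (ι r) = b r * n)
    (v : Fin m → EuclideanSpace ℝ (Fin d)) (hv : AffineIndependent ℝ v)
    (μ : ∀ r, ι r → Measure (EuclideanSpace ℝ (Fin d)))
    (hμ : ∀ r i, IsProbabilityMeasure (μ r i))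
    (hac : ∀ r i, (μ r i).AbsolutelyContinuous volume) :
    ∃ L0 : ℝ, ∀ L : ℝ, L0 ≤ L → ∃ C : Fin n → Set (EuclideanSpace ℝ (Fin d)),
      (∀ k, Convex ℝ (C k)) ∧ (∀ k, IsClosed (C k)) ∧ (⋃ k, C k) = Set.univ ∧
      (∀ k l, k ≠ l → Disjoint (interior (C k)) (interior (C l))) ∧
      ∀ r, ∃ π : ι r → Fin n, (∀ k, Nat.card {i // π i = k} = b r) ∧
        ∀ i k, (μ r i).map (fun y => y + L • v r) (C k) ≤
          (μ r i).map (fun y => y + L • v r) (C (π i)) := by
  classical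
  choose a c ha1 ha2 using fun I => sep_points v hv I
  -- large balls
  have hev : ∀ r i, ∀ᶠ M : ℕ in Filter.atTop, (n : ENNReal) * μ r i {z | (M : ℝ) < ‖z‖} < 1 := by
    intro r i
    have := hμ r i
    have h1 : Filter.Tendsto (fun M : ℕ => μ r i {z | (M : ℝ) < ‖z‖}) Filter.atTop
        (nhds (μ r i (⋂ M : ℕ, {z | (M : ℝ) < ‖z‖}))) := by
      apply tendsto_measure_iInter_atTop
      · intro M
        exact (measurableSet_lt measurable_const measurable_norm).nullMeasurableSet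
      · intro M M' hM z hz
        have : (M : ℝ) ≤ M' := by exact_mod_cast hM
        exact lt_of_le_of_lt this hz
      · exact ⟨0, measure_ne_top _ _⟩
    have h2 : (⋂ M : ℕ, {z : EuclideanSpace ℝ (Fin d) | (M : ℝ) < ‖z‖}) = ∅ := by
      ext z
      simp only [Set.mem_iInter, Set.mem_ofPred_eq, Set.mem_empty_iff_false, iff_false, not_forall,
        not_lt]
      exact exists_nat_ge ‖z‖
    rw [h2, measure_empty] at h1
    have h5 : Filter.Tendsto (fun M : ℕ => (n : ENNReal) * μ r i {z | (M : ℝ) < ‖z‖})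
        Filter.atTop (nhds ((n : ENNReal) * 0)) :=
      ENNReal.Tendsto.const_mul h1 (Or.inr (ENNReal.natCast_ne_top n))
    rw [mul_zero] at h5
    exact h5.eventually (gt_mem_nhds one_pos)
  have hev2 : ∀ᶠ M : ℕ in Filter.atTop, ∀ r i, (n : ENNReal) * μ r i {z | (M : ℝ) < ‖z‖} < 1 := by
    rw [Filter.eventually_all]
    intro r
    rw [Filter.eventually_all]
    exact fun i => hev r i
  obtain ⟨M, hM⟩ := hev2.exists
  obtain ⟨S, hS⟩ : ∃ S : ℝ, ∀ I : Finset (Fin m), ‖a I‖ ≤ S := by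
    refine ⟨∑ I, ‖a I‖, fun I => ?_⟩
    exact Finset.single_le_sum (f := fun I => ‖a I‖) (fun I _ => norm_nonneg _) (Finset.mem_univ I)
  refine ⟨S * M + 1, fun L hL => ?_⟩
  have hS0 : 0 ≤ S := (norm_nonneg _).trans (hS ∅)
  have hmeas : ∀ r, Measurable (fun y : EuclideanSpace ℝ (Fin d) => y + L • v r) := fun r =>
    measurable_add_const _
  have hb : ∀ I r y, ‖y - L • v r‖ ≤ M → |inner ℝ (a I) (y - L • v r)| < L := by
    intro I r y hy
    have h1 : |inner ℝ (a I) (y - L • v r)| ≤ ‖a I‖ * ‖y - L • v r‖ := abs_real_inner_le_norm _ _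
    have h2 : ‖a I‖ * ‖y - L • v r‖ ≤ S * M := mul_le_mul (hS I) hy (norm_nonneg _) hS0
    linarith
  have hin : ∀ I r y, inner ℝ (a I) y = inner ℝ (a I) (y - L • v r) + L * inner ℝ (a I) (v r) := by
    intro I r y
    rw [inner_sub_right, real_inner_smul_right]
    ring
  refine partA n d m hn hmd b ι hι (fun r => {y | ‖y - L • v r‖ ≤ M}) ?_ _ ?_ ?_ ?_
  · intro I
    refine ⟨a I, L * c I, ?_, ?_⟩
    · intro r hr y hy
      have h1 := abs_lt.mp (hb I r y hy)
      rw [hin I r y, ha1 I r hr]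
      linarith
    · intro r hr y hy
      have h1 := abs_lt.mp (hb I r y hy)
      rw [hin I r y, ha2 I r hr]
      linarith
  · intro r i
    have := hμ r i
    exact Measure.isProbabilityMeasure_map (hmeas r).aemeasurable
  · intro r i
    have h1 := (hac r i).map (hmeas r)
    have h2 : (volume : Measure (EuclideanSpace ℝ (Fin d))).map (fun y => y + L • v r) = volume :=
      map_add_right_eq_self volume (L • v r)
    rwa [h2] at h1
  · intro r i
    have h1 : (μ r i).map (fun y => y + L • v r) {y | ‖y - L • v r‖ ≤ M}ᶜ =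
        μ r i {z | (M : ℝ) < ‖z‖} := by
      rw [Measure.map_apply (hmeas r)]
      · congr 1
        ext z
        simp
      · apply MeasurableSet.compl
        exact (isClosed_le (by fun_prop) continuous_const).measurableSet
    rw [h1]
    exact hM r i

end Pool.Agent.H53.EFS
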