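import Mathlib

/-!
A continuous cube of affine functions with prescribed signs on the faces, without zeros.
-/

namespace Pool.Agent.H53.EFS

open Finset MeasureTheory

/-- the affine function with coefficients `p` -/
noncomputable def aff {d : ℕ} (p : EuclideanSpace ℝ (Fin d) × ℝ) (y : EuclideanSpace ℝ (Fin d)) :
    ℝ := inner ℝ p.1 y - p.2

theorem aff_cont {d : ℕ} (p : EuclideanSpace ℝ (Fin d) × ℝ) : Continuous (aff p) := by
  unfold aff
  fun_prop

theorem aff_cont_p {d : ℕ} (y : EuclideanSpace ℝ (Fin d)) :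
    Continuous (fun p : EuclideanSpace ℝ (Fin d) × ℝ => aff p y) := by
  unfold aff
  fun_prop

theorem aff_aff {d : ℕ} (p : EuclideanSpace ℝ (Fin d) × ℝ) (y z : EuclideanSpace ℝ (Fin d))
    (a b : ℝ) (hab : a + b = 1) : aff p (a • y + b • z) = a * aff p y + b * aff p z := by
  unfold aff
  rw [inner_add_right, real_inner_smul_right, real_inner_smul_right]
  linear_combination p.2 * hab

theorem aff_null {d : ℕ} (p : EuclideanSpace ℝ (Fin d) × ℝ) (hp : p ≠ 0) :
    volume {y : EuclideanSpace ℝ (Fin d) | aff p y = 0} = 0 := by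
  let s : AffineSubspace ℝ (EuclideanSpace ℝ (Fin d)) :=
    { carrier := {y | aff p y = 0}
      smul_vsub_vadd_mem' := by
        intro t u v w hu hv hw
        simp only [Set.mem_ofPred_eq] at hu hv hw ⊢
        have h3 : t • (u -ᵥ v) +ᵥ w =
            (2 : ℝ) • ((1 / 2 : ℝ) • (t • u + (1 - t) • v) + (1 / 2 : ℝ) • w) + (-1 : ℝ) • v := by
          simp only [vsub_eq_sub, vadd_eq_add]
          module
        rw [h3, aff_aff p _ _ _ _ (by norm_num), aff_aff p _ _ _ _ (by norm_num),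
          aff_aff p _ _ _ _ (by ring), hu, hv, hw]
        ring }
  have hs : s ≠ ⊤ := by
    intro hs
    have hall : ∀ y : EuclideanSpace ℝ (Fin d), aff p y = 0 := by
      intro y
      have h0 : y ∈ s := by rw [hs]; exact AffineSubspace.mem_top _ _ _
      exact h0
    have h1 := hall 0
    unfold aff at h1
    rw [inner_zero_right, zero_sub, neg_eq_zero] at h1
    have h2 := hall p.1
    unfold aff at h2
    rw [h1, sub_zero] at h2
    have h3 : p.1 = 0 := inner_self_eq_zero.mp h2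
    exact hp (Prod.ext h3 h1)
  exact Measure.addHaar_affineSubspace volume s hs

/-- weights of the vertices of the cube -/
noncomputable def wgt {m : ℕ} (I : Finset (Fin m)) (s : Fin m → ℝ) : ℝ :=
  (∏ r ∈ I, s r) * ∏ r ∈ Finset.univ \ I, (1 - s r)

theorem wgt_sum {m : ℕ} (s : Fin m → ℝ) : ∑ I, wgt I s = 1 := by
  unfold wgt
  have h := Finset.prod_add s (fun r => 1 - s r) (Finset.univ : Finset (Fin m))
  simp only [add_sub_cancel, Finset.prod_const_one, Finset.powerset_univ] at h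
  exact h.symm

theorem wgt_nonneg {m : ℕ} (I : Finset (Fin m)) (s : Fin m → ℝ) (hs : ∀ r, 0 ≤ s r ∧ s r ≤ 1) :
    0 ≤ wgt I s := by
  unfold wgt
  apply mul_nonneg
  · exact Finset.prod_nonneg (fun r _ => (hs r).1)
  · exact Finset.prod_nonneg (fun r _ => sub_nonneg.mpr (hs r).2)

theorem wgt_one {m : ℕ} (I : Finset (Fin m)) (s : Fin m → ℝ) (r : Fin m) (hs : s r = 1)
    (hr : r ∉ I) : wgt I s = 0 := by
  unfold wgt
  have : ∏ r ∈ Finset.univ \ I, (1 - s r) = 0 := by
    apply Finset.prod_eq_zero (i := r)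
    · rw [Finset.mem_sdiff]
      exact ⟨Finset.mem_univ r, hr⟩
    · rw [hs, sub_self]
  rw [this, mul_zero]

theorem wgt_zero {m : ℕ} (I : Finset (Fin m)) (s : Fin m → ℝ) (r : Fin m) (hs : s r = 0)
    (hr : r ∈ I) : wgt I s = 0 := by
  unfold wgt
  rw [Finset.prod_eq_zero hr hs, zero_mul]

theorem wgt_contDiff {m : ℕ} (I : Finset (Fin m)) : ContDiff ℝ 1 (wgt I) := by
  unfold wgt
  fun_prop

theorem aff_sub {d : ℕ} (p q : EuclideanSpace ℝ (Fin d) × ℝ) (y : EuclideanSpace ℝ (Fin d)) :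
    aff (p - q) y = aff p y - aff q y := by
  unfold aff
  rw [Prod.fst_sub, Prod.snd_sub, inner_sub_left]
  ring

theorem aff_sum {d : ℕ} {ι : Type*} (T : Finset ι) (w : ι → ℝ)
    (A : ι → EuclideanSpace ℝ (Fin d) × ℝ) (y : EuclideanSpace ℝ (Fin d)) :
    aff (∑ I ∈ T, w I • A I) y = ∑ I ∈ T, w I * aff (A I) y := by
  classical
  induction T using Finset.induction_on with
  | empty => simp [aff]
  | insert a T ha ih =>
    rw [Finset.sum_insert ha, Finset.sum_insert ha, ← ih]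
    unfold aff
    rw [Prod.fst_add, Prod.snd_add, Prod.smul_fst, Prod.smul_snd, inner_add_left,
      real_inner_smul_left, smul_eq_mul]
    ring

theorem aff_bound {d : ℕ} (p : EuclideanSpace ℝ (Fin d) × ℝ) (y : EuclideanSpace ℝ (Fin d))
    (R : ℝ) (hy : ‖y‖ ≤ R) : |aff p y| ≤ ‖p‖ * (R + 1) := by
  unfold aff
  have h1 : |inner ℝ p.1 y| ≤ ‖p.1‖ * ‖y‖ := abs_real_inner_le_norm _ _
  have h2 : ‖p.1‖ ≤ ‖p‖ := norm_fst_le p
  have h3 : |p.2| ≤ ‖p‖ := norm_snd_le p
  have h4 : ‖p.1‖ * ‖y‖ ≤ ‖p‖ * R := mul_le_mul h2 hy (norm_nonneg _) (norm_nonneg _)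
  have h5 := abs_sub (inner ℝ p.1 y) p.2
  linarith

theorem hyp {d m : ℕ} (hmd : m ≤ d) (A : Finset (Fin m) → EuclideanSpace ℝ (Fin d) × ℝ) (R δ : ℝ)
    (hR : 0 ≤ R) (hδ : 0 < δ) :
    ∃ G : (Fin m → ℝ) → EuclideanSpace ℝ (Fin d) × ℝ, Continuous G ∧ (∀ s, G s ≠ 0) ∧
      (∀ s, (∀ r, 0 ≤ s r ∧ s r ≤ 1) → ∀ r, s r = 1 → ∀ y, ‖y‖ ≤ R →
        (∀ I, r ∈ I → δ ≤ aff (A I) y) → 0 < aff (G s) y) ∧
      (∀ s, (∀ r, 0 ≤ s r ∧ s r ≤ 1) → ∀ r, s r = 0 → ∀ y, ‖y‖ ≤ R →
        (∀ I, r ∉ I → aff (A I) y ≤ -δ) → aff (G s) y < 0) := by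
  classical
  let F : (Fin m → ℝ) → EuclideanSpace ℝ (Fin d) × ℝ := fun s => ∑ I, wgt I s • A I
  have hF : ContDiff ℝ 1 F := by
    apply ContDiff.sum
    intro I _
    exact (wgt_contDiff I).smul contDiff_const
  have hdim : Module.finrank ℝ (Fin m → ℝ) < Module.finrank ℝ (EuclideanSpace ℝ (Fin d) × ℝ) := by
    rw [Module.finrank_prod]
    simp
    omega
  have hdense := hF.dense_compl_range_of_finrank_lt_finrank hdim
  obtain ⟨p, hp1, hp2⟩ := hdense.exists_dist_lt 0 (ε := δ / (R + 1)) (by positivity)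
  rw [dist_zero_left] at hp2
  have hpb : ∀ y : EuclideanSpace ℝ (Fin d), ‖y‖ ≤ R → |aff p y| < δ := by
    intro y hy
    refine lt_of_le_of_lt (aff_bound p y R hy) ?_
    rw [lt_div_iff₀ (by positivity)] at hp2
    exact hp2
  refine ⟨fun s => F s - p, hF.continuous.sub continuous_const, ?_, ?_, ?_⟩
  · intro s hs
    apply hp1
    exact ⟨s, sub_eq_zero.mp hs⟩
  · intro s hs r hr y hy hA
    have h1 := abs_lt.mp (hpb y hy)
    rw [aff_sub]
    have h2 : δ ≤ aff (F s) y := by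
      change δ ≤ aff (∑ I, wgt I s • A I) y
      rw [aff_sum]
      have h3 : δ = ∑ I, wgt I s * δ := by
        rw [← Finset.sum_mul, wgt_sum, one_mul]
      rw [h3]
      apply Finset.sum_le_sum
      intro I _
      by_cases hI : r ∈ I
      · exact mul_le_mul_of_nonneg_left (hA I hI) (wgt_nonneg I s hs)
      · rw [wgt_one I s r hr hI, zero_mul, zero_mul]
    linarith
  · intro s hs r hr y hy hA
    have h1 := abs_lt.mp (hpb y hy)
    rw [aff_sub]
    have h2 : aff (F s) y ≤ -δ := by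
      change aff (∑ I, wgt I s • A I) y ≤ -δ
      rw [aff_sum]
      have h3 : -δ = ∑ I, wgt I s * (-δ) := by
        rw [← Finset.sum_mul, wgt_sum, one_mul]
      rw [h3]
      apply Finset.sum_le_sum
      intro I _
      by_cases hI : r ∈ I
      · rw [wgt_zero I s r hr hI, zero_mul, zero_mul]
      · exact mul_le_mul_of_nonneg_left (hA I hI) (wgt_nonneg I s hs)
    linarith

end Pool.Agent.H53.EFS
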