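import Mathlib

/-!
Weights of nearly preferred pieces, and Hall's theorem.
-/

namespace Pool.Agent.H53.EFS

open Finset

/-- unnormalised weight of the index `j` -/
noncomputable def wt {n : ℕ} (ε : ℝ) (a : Fin n → ℝ) (j : Fin n) : ℝ :=
  ∏ k, max 0 (ε + a j - a k)

theorem wt_nonneg {n : ℕ} (ε : ℝ) (a : Fin n → ℝ) (j : Fin n) : 0 ≤ wt ε a j :=
  Finset.prod_nonneg fun _ _ => le_max_left _ _

theorem wt_lt {n : ℕ} {ε : ℝ} {a : Fin n → ℝ} {j : Fin n} (h : 0 < wt ε a j) (k : Fin n) :
    a k < a j + ε := by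
  by_contra hcon
  push Not at hcon
  have : wt ε a j = 0 := by
    unfold wt
    apply Finset.prod_eq_zero (Finset.mem_univ k)
    exact max_eq_left (by linarith)
  rw [this] at h
  exact lt_irrefl _ h

theorem wt_sum_pos {n : ℕ} [NeZero n] {ε : ℝ} (hε : 0 < ε) (a : Fin n → ℝ) :
    0 < ∑ j, wt ε a j := by
  have : Nonempty (Fin n) := ⟨⟨0, Nat.pos_of_ne_zero (NeZero.ne n)⟩⟩
  obtain ⟨j, hj⟩ := Finite.exists_max a
  apply Finset.sum_pos' (fun _ _ => wt_nonneg _ _ _)
  refine ⟨j, Finset.mem_univ j, ?_⟩
  unfold wt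
  apply Finset.prod_pos
  intro k _
  apply lt_max_of_lt_right
  have := hj k
  linarith

/-- a nonnegative matrix with row sums `1` and column sums `b` -/
theorem hall {ι : Type*} [Fintype ι] {n b : ℕ} (A : ι → Fin n → ℝ)
    (hA : ∀ i j, 0 ≤ A i j) (hrow : ∀ i, ∑ j, A i j = 1) (hcol : ∀ j, ∑ i, A i j = b) :
    ∃ π : ι → Fin n, (∀ j, Nat.card {i // π i = j} = b) ∧ ∀ i, 0 < A i (π i) := by
  classical
  have hcard : Fintype.card ι = n * b := by
    have h1 : ∑ i, ∑ j, A i j = ∑ j, ∑ i, A i j := Finset.sum_comm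
    rw [Finset.sum_congr rfl (fun i _ => hrow i), Finset.sum_congr rfl (fun j _ => hcol j)] at h1
    simp only [Finset.sum_const, Finset.card_univ, nsmul_eq_mul, mul_one, Fintype.card_fin] at h1
    exact_mod_cast h1
  obtain ⟨f, hf, hfm⟩ := (Finset.all_card_le_biUnion_card_iff_exists_injective
    (fun s : Fin n × Fin b => (Finset.univ.filter (fun i : ι => 0 < A i s.1)))).mp (by
    intro S
    set J := S.image Prod.fst with hJ
    set N := S.biUnion (fun s : Fin n × Fin b => (Finset.univ.filter (fun i : ι => 0 < A i s.1)))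
      with hN
    have h1 : S.card ≤ J.card * b := by
      have : S ⊆ J ×ˢ (Finset.univ : Finset (Fin b)) := by
        intro s hs
        rw [Finset.mem_product]
        exact ⟨Finset.mem_image_of_mem _ hs, Finset.mem_univ _⟩
      have := Finset.card_le_card this
      rwa [Finset.card_product, Finset.card_univ, Fintype.card_fin] at this
    have h2 : ((J.card * b : ℕ) : ℝ) ≤ (N.card : ℝ) := by
      have e1 : ((J.card * b : ℕ) : ℝ) = ∑ j ∈ J, ∑ i, A i j := by
        rw [Finset.sum_congr rfl (fun j _ => hcol j)]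
        simp
      have e2 : ∑ j ∈ J, ∑ i, A i j = ∑ i, ∑ j ∈ J, A i j := Finset.sum_comm
      have e3 : ∑ i ∈ N, ∑ j ∈ J, A i j = ∑ i, ∑ j ∈ J, A i j := by
        apply Finset.sum_subset (Finset.subset_univ N)
        intro i _ hi
        apply Finset.sum_eq_zero
        intro j hj
        obtain ⟨s, hs, hsj⟩ := Finset.mem_image.mp hj
        by_contra hne
        apply hi
        rw [hN, Finset.mem_biUnion]
        refine ⟨s, hs, ?_⟩
        rw [Finset.mem_filter]
        refine ⟨Finset.mem_univ _, ?_⟩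
        rw [hsj]
        exact lt_of_le_of_ne (hA i j) (fun h => hne h.symm)
      have e4 : ∑ i ∈ N, ∑ j ∈ J, A i j ≤ ∑ i ∈ N, (1 : ℝ) := by
        apply Finset.sum_le_sum
        intro i _
        rw [← hrow i]
        exact Finset.sum_le_sum_of_subset_of_nonneg (Finset.subset_univ J) (fun j _ _ => hA i j)
      rw [e1, e2, ← e3]
      refine le_trans e4 ?_
      simp
    have h3 : J.card * b ≤ N.card := by exact_mod_cast h2
    exact h1.trans h3)
  have hbij : Function.Bijective f := by
    rw [Fintype.bijective_iff_injective_and_card]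
    refine ⟨hf, ?_⟩
    rw [hcard]
    simp
  set e := Equiv.ofBijective f hbij with he
  refine ⟨fun i => (e.symm i).1, ?_, ?_⟩
  · intro j
    have e1 : {i // (e.symm i).1 = j} ≃ Fin b :=
      { toFun := fun i => (e.symm i.1).2
        invFun := fun k => ⟨e (j, k), by simp⟩
        left_inv := by
          rintro ⟨i, hi⟩
          apply Subtype.ext
          have : (j, (e.symm i).2) = e.symm i := Prod.ext hi.symm rfl
          simp only
          rw [this, Equiv.apply_symm_apply]
        right_inv := by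
          intro k
          simp }
    rw [Nat.card_congr e1, Nat.card_eq_fintype_card, Fintype.card_fin]
  · intro i
    have h1 := hfm (e.symm i)
    have h2 : f (e.symm i) = i := e.apply_symm_apply i
    rw [h2, Finset.mem_filter] at h1
    exact h1.2

end Pool.Agent.H53.EFS
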