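import Pool.Agent.H53.EFS.Pc
import Pool.Agent.H53.EFS.Wt

/-!
Envy-free partitions for families living in different places.
-/

namespace Pool.Agent.H53.EFS

open Finset MeasureTheory

/-- approximate version, for abstract values of the pieces -/
theorem approx {m N : ℕ} (b : Fin m → ℕ) (ι : Fin m → Type) [∀ r, Fintype (ι r)]
    (hι : ∀ r, Fintype.card (ι r) = b r * (N + 1))
    (a : ∀ r, ι r → (Fin m × Fin N → ℝ) → Fin (N + 1) → ℝ)
    (hc : ∀ r i k, Continuous (fun x => a r i x k))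
    (hs : ∀ r i x, 1 ≤ ∑ k, a r i x k) (ρ : ℝ) (hρ : 0 < ρ)
    (h0 : ∀ x ∈ cube (Fin m × Fin N), ∀ r i (k : Fin N), x (r, k) = 0 →
      a r i x k.castSucc + ρ ≤ 1 / (N + 1))
    (h1 : ∀ x ∈ cube (Fin m × Fin N), ∀ r i (k : Fin N), x (r, k) = 1 →
      ∀ l : Fin (N + 1), k.castSucc < l → a r i x l + ρ ≤ 1 / (N + 1)) :
    ∃ x ∈ cube (Fin m × Fin N), ∀ r, ∃ π : ι r → Fin (N + 1),
      (∀ k, Nat.card {i // π i = k} = b r) ∧ ∀ i k, a r i x k ≤ a r i x (π i) + ρ := by
  classical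
  have hN : (0 : ℝ) < N + 1 := by positivity
  -- a piece with large value
  have hbig : ∀ r i x, ∃ k, 1 / ((N : ℝ) + 1) ≤ a r i x k := by
    intro r i x
    by_contra hcon
    push Not at hcon
    have h2 : ∑ k, a r i x k < ∑ _k : Fin (N + 1), 1 / ((N : ℝ) + 1) :=
      Finset.sum_lt_sum_of_nonempty ⟨0, Finset.mem_univ _⟩ (fun k _ => hcon k)
    rw [Finset.sum_const, Finset.card_univ, Fintype.card_fin, nsmul_eq_mul] at h2
    push_cast at h2
    rw [mul_one_div_cancel hN.ne'] at h2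
    exact absurd (hs r i x) (not_le.mpr h2)
  have hz : ∀ r i x k, a r i x k + ρ ≤ 1 / (N + 1) → wt ρ (a r i x) k = 0 := by
    intro r i x k h
    by_contra hne
    have hpos : 0 < wt ρ (a r i x) k := lt_of_le_of_ne (wt_nonneg _ _ _) (fun h => hne h.symm)
    obtain ⟨l, hl⟩ := hbig r i x
    have := wt_lt hpos l
    linarith
  have hpos : ∀ r i x, 0 < ∑ l, wt ρ (a r i x) l := fun r i x => wt_sum_pos hρ _
  have hwt : ∀ r i l, Continuous (fun x => wt ρ (a r i x) l) := by
    intro r i l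
    unfold wt
    apply continuous_finsetProd
    intro k _
    apply Continuous.max continuous_const
    exact ((continuous_const).add (hc r i l)).sub (hc r i k)
  obtain ⟨x, hx, he⟩ := equalize (fun r => (b r : ℝ))
    (fun x r k => ∑ i : ι r, wt ρ (a r i x) k / ∑ l, wt ρ (a r i x) l)
    (by
      intro r k
      apply Continuous.continuousOn
      apply continuous_finsetSum
      intro i _
      exact (hwt r i k).div (continuous_finsetSum _ (fun l _ => hwt r i l))
        (fun x => (hpos r i x).ne'))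
    (fun x _ r k => Finset.sum_nonneg
      (fun i _ => div_nonneg (wt_nonneg _ _ _) (hpos r i x).le))
    (by
      intro x _ r
      rw [Finset.sum_comm]
      have : ∀ i : ι r, ∑ k : Fin (N + 1), wt ρ (a r i x) k / ∑ l, wt ρ (a r i x) l = 1 := by
        intro i
        rw [← Finset.sum_div]
        exact div_self (hpos r i x).ne'
      rw [Finset.sum_congr rfl (fun i _ => this i)]
      simp only [Finset.sum_const, Finset.card_univ, nsmul_eq_mul, mul_one]
      rw [hι r]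
      push_cast
      ring)
    (by
      intro x hx r k hk
      apply Finset.sum_eq_zero
      intro i _
      rw [hz r i x _ (h0 x hx r i k hk), zero_div])
    (by
      intro x hx r k hk l hl
      apply Finset.sum_eq_zero
      intro i _
      rw [hz r i x _ (h1 x hx r i k hk l hl), zero_div])
  refine ⟨x, hx, ?_⟩
  intro r
  obtain ⟨π, hπ1, hπ2⟩ := hall (b := b r) (fun (i : ι r) (j : Fin (N + 1)) =>
    wt ρ (a r i x) j / ∑ l, wt ρ (a r i x) l)
    (fun i j => div_nonneg (wt_nonneg _ _ _) (hpos r i x).le)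
    (fun i => by
      rw [← Finset.sum_div]
      exact div_self (hpos r i x).ne')
    (fun j => he r j)
  refine ⟨π, hπ1, ?_⟩
  intro i k
  have h2 := hπ2 i
  have h3 : 0 < wt ρ (a r i x) (π i) := by
    by_contra hcon
    have h3 : wt ρ (a r i x) (π i) = 0 := le_antisymm (not_lt.mp hcon) (wt_nonneg _ _ _)
    simp only [h3, zero_div, lt_irrefl] at h2
  exact (wt_lt h3 k).le

/-- exact version -/
theorem exact {m N : ℕ} (b : Fin m → ℕ) (ι : Fin m → Type) [∀ r, Fintype (ι r)]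
    (hι : ∀ r, Fintype.card (ι r) = b r * (N + 1))
    (a : ∀ r, ι r → (Fin m × Fin N → ℝ) → Fin (N + 1) → ℝ)
    (hc : ∀ r i k, Continuous (fun x => a r i x k))
    (hs : ∀ r i x, 1 ≤ ∑ k, a r i x k) (ρ : ℝ) (hρ : 0 < ρ)
    (h0 : ∀ x ∈ cube (Fin m × Fin N), ∀ r i (k : Fin N), x (r, k) = 0 →
      a r i x k.castSucc + ρ ≤ 1 / (N + 1))
    (h1 : ∀ x ∈ cube (Fin m × Fin N), ∀ r i (k : Fin N), x (r, k) = 1 →
      ∀ l : Fin (N + 1), k.castSucc < l → a r i x l + ρ ≤ 1 / (N + 1)) :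
    ∃ x ∈ cube (Fin m × Fin N), ∀ r, ∃ π : ι r → Fin (N + 1),
      (∀ k, Nat.card {i // π i = k} = b r) ∧ ∀ i k, a r i x k ≤ a r i x (π i) := by
  classical
  have hle : ∀ M : ℕ, ρ / ((M : ℝ) + 1) ≤ ρ := by
    intro M
    apply div_le_self hρ.le
    have : (0 : ℝ) ≤ M := Nat.cast_nonneg M
    linarith
  have h := fun M : ℕ => approx b ι hι a hc hs (ρ / ((M : ℝ) + 1)) (by positivity)
    (fun x hx r i k hk => by
      have := h0 x hx r i k hk
      have := hle M
      linarith)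
    (fun x hx r i k hk l hl => by
      have := h1 x hx r i k hk l hl
      have := hle M
      linarith)
  choose u hu Q hQ1 hQ2 using h
  obtain ⟨Q0, hQ0⟩ := Finite.exists_infinite_fiber Q
  have hfr : ∃ᶠ M in Filter.atTop, Q M = Q0 := by
    rw [Nat.frequently_atTop_iff_infinite]
    exact Set.infinite_coe_iff.mp hQ0
  obtain ⟨φ1, hφ1, hq1⟩ := Filter.extraction_of_frequently_atTop hfr
  obtain ⟨x0, hx0, φ2, hφ2, hlim⟩ := (cube_compact (Fin m × Fin N)).tendsto_subseq
    (x := fun M => u (φ1 M)) (fun M => hu (φ1 M))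
  refine ⟨x0, hx0, ?_⟩
  intro r
  refine ⟨Q0 r, ?_, ?_⟩
  · intro j
    have := hQ1 (φ1 0) r j
    rw [hq1 0] at this
    exact this
  · intro i j
    have hcont : ∀ j, Filter.Tendsto (fun M => a r i (u (φ1 (φ2 M))) j) Filter.atTop
        (nhds (a r i x0 j)) := fun j => ((hc r i j).tendsto x0).comp hlim
    have hz : Filter.Tendsto (fun M => ρ / (((φ1 (φ2 M) : ℕ) : ℝ) + 1)) Filter.atTop
        (nhds 0) := by
      have h2 : Filter.Tendsto (fun M => ρ * (1 / (((φ1 (φ2 M) : ℕ) : ℝ) + 1))) Filter.atTop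
          (nhds (ρ * 0)) := (tendsto_one_div_add_atTop_nhds_zero_nat.comp
            (hφ1.comp hφ2).tendsto_atTop).const_mul ρ
      rw [mul_zero] at h2
      refine h2.congr (fun M => ?_)
      rw [mul_one_div]
    have h2 := (hcont (Q0 r i)).add hz
    rw [add_zero] at h2
    apply le_of_tendsto_of_tendsto' (hcont j) h2
    intro M
    have := hQ2 (φ1 (φ2 M)) r i j
    rw [hq1 (φ2 M)] at this
    exact this

theorem core {d m N : ℕ} (b : Fin m → ℕ) (ι : Fin m → Type) [∀ r, Fintype (ι r)]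
    (hι : ∀ r, Fintype.card (ι r) = b r * (N + 1))
    (μ : ∀ r, ι r → Measure (EuclideanSpace ℝ (Fin d)))
    (hμ : ∀ r i, IsProbabilityMeasure (μ r i))
    (hac : ∀ r i, (μ r i).AbsolutelyContinuous volume)
    (G : (Fin m → ℝ) → EuclideanSpace ℝ (Fin d) × ℝ) (hGc : Continuous G) (hG : ∀ s, G s ≠ 0)
    (K : Fin m → Set (EuclideanSpace ℝ (Fin d)))
    (hK : ∀ r i, ((N : ENNReal) + 1) * μ r i (K r)ᶜ < 1)
    (h1 : ∀ s : Fin m → ℝ, (∀ r, 0 ≤ s r ∧ s r ≤ 1) → ∀ r, s r = 1 → ∀ y ∈ K r,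
      0 < aff (G s) y)
    (h0 : ∀ s : Fin m → ℝ, (∀ r, 0 ≤ s r ∧ s r ≤ 1) → ∀ r, s r = 0 → ∀ y ∈ K r,
      aff (G s) y < 0) :
    ∃ x : Fin m × Fin N → ℝ, ∀ r, ∃ π : ι r → Fin (N + 1),
      (∀ k, Nat.card {i // π i = k} = b r) ∧
      ∀ i k, μ r i (pc G x k) ≤ μ r i (pc G x (π i)) := by
  classical
  have hN : (0 : ℝ) < N + 1 := by positivity
  have htop : ∀ r i s, μ r i s ≠ ⊤ := fun r i s => by
    have := hμ r i
    exact measure_ne_top _ _
  -- the missing mass
  have hη : ∀ r i, (μ r i (K r)ᶜ).toReal < 1 / ((N : ℝ) + 1) := by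
    intro r i
    have h2 := hK r i
    rw [lt_div_iff₀ hN, mul_comm]
    have h3 := (ENNReal.toReal_lt_toReal (ne_top_of_lt h2) ENNReal.one_ne_top).mpr h2
    rw [ENNReal.toReal_mul, ENNReal.toReal_one] at h3
    have h4 : ((N : ENNReal) + 1).toReal = (N : ℝ) + 1 := by
      rw [ENNReal.toReal_add (ENNReal.natCast_ne_top N) ENNReal.one_ne_top]
      simp
    rw [h4] at h3
    exact h3
  obtain ⟨ρ, hρ, hρ2⟩ : ∃ ρ : ℝ, 0 < ρ ∧ ∀ r i,
      (μ r i (K r)ᶜ).toReal + ρ ≤ 1 / ((N : ℝ) + 1) := by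
    have h2 : ∀ᶠ ρ : ℝ in nhdsWithin 0 (Set.Ioi 0), ∀ r i,
        (μ r i (K r)ᶜ).toReal + ρ ≤ 1 / ((N : ℝ) + 1) := by
      rw [Filter.eventually_all]
      intro r
      rw [Filter.eventually_all]
      intro i
      have h3 : 0 < 1 / ((N : ℝ) + 1) - (μ r i (K r)ᶜ).toReal := sub_pos.mpr (hη r i)
      filter_upwards [Ioo_mem_nhdsGT h3] with ρ hρ
      have := hρ.2
      linarith
    obtain ⟨ρ, h3, h4⟩ := (h2.and self_mem_nhdsWithin).exists
    exact ⟨ρ, h4, h3⟩
  have hmiss : ∀ r i (x : Fin m × Fin N → ℝ) (k : Fin (N + 1)), Disjoint (pc G x k) (K r) →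
      (μ r i (pc G x k)).toReal + ρ ≤ 1 / ((N : ℝ) + 1) := by
    intro r i x k hd
    have h2 : μ r i (pc G x k) ≤ μ r i (K r)ᶜ :=
      measure_mono (Set.subset_compl_iff_disjoint_right.mpr hd)
    have h3 := ENNReal.toReal_mono (htop r i _) h2
    have h4 := hρ2 r i
    linarith
  obtain ⟨x, _, hx⟩ := exact b ι hι (fun r i x k => (μ r i (pc G x k)).toReal)
    (by
      intro r i k
      rw [continuous_iff_continuousAt]
      intro x
      have := hμ r i
      exact (ENNReal.tendsto_toReal (htop r i _)).comp (pc_cont G hGc hG (μ r i) (hac r i) x k))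
    (by
      intro r i x
      have := hμ r i
      have h2 : (1 : ENNReal) ≤ ∑ k, μ r i (pc G x k) := by
        rw [← measure_univ (μ := μ r i), ← pc_cover G x]
        exact measure_iUnion_fintype_le _ _
      rw [← ENNReal.toReal_sum (fun k _ => htop r i _), ← ENNReal.toReal_one]
      exact ENNReal.toReal_mono (ENNReal.sum_ne_top.mpr (fun k _ => htop r i _)) h2)
    ρ hρ
    (by
      intro x hx r i k hk
      apply hmiss
      rw [Set.disjoint_left]
      intro y hy hyK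
      have h2 := h0 (fun r => x (r, k)) (fun r => hx (r, k)) r hk y hyK
      exact absurd (hy.2 k rfl) (not_le.mpr h2))
    (by
      intro x hx r i k hk l hl
      apply hmiss
      rw [Set.disjoint_left]
      intro y hy hyK
      have h2 := h1 (fun r => x (r, k)) (fun r => hx (r, k)) r hk y hyK
      exact absurd (hy.1 k hl) (not_le.mpr h2))
  refine ⟨x, fun r => ?_⟩
  obtain ⟨π, hπ1, hπ2⟩ := hx r
  refine ⟨π, hπ1, fun i k => ?_⟩
  exact (ENNReal.toReal_le_toReal (htop r i _) (htop r i _)).mp (hπ2 i k)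

end Pool.Agent.H53.EFS
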