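import Pool.Agent.H64.Brouwer

/-!
The Poincaré–Miranda theorem on a cube.
-/

namespace Pool.Agent.H53.EFS

open Finset

/-- the unit cube -/
def cube (ι : Type*) : Set (ι → ℝ) := {x | ∀ i, 0 ≤ x i ∧ x i ≤ 1}

theorem cube_compact (ι : Type*) [Fintype ι] : IsCompact (cube ι) := by
  have : cube ι = Set.pi Set.univ (fun _ : ι => Set.Icc (0 : ℝ) 1) := by
    ext x
    simp only [cube, Set.mem_ofPred_eq, Set.mem_pi, Set.mem_univ, forall_true_left, Set.mem_Icc]
  rw [this]
  exact isCompact_univ_pi (fun _ => isCompact_Icc)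

/-- **Poincaré–Miranda** -/
theorem miranda {ι : Type*} [Fintype ι] (f : (ι → ℝ) → ι → ℝ)
    (hc : ∀ i, ContinuousOn (fun x => f x i) (cube ι))
    (h0 : ∀ x ∈ cube ι, ∀ i, x i = 0 → f x i ≤ 0) (h1 : ∀ x ∈ cube ι, ∀ i, x i = 1 → 0 ≤ f x i) :
    ∃ x ∈ cube ι, ∀ i, f x i = 0 := by
  classical
  let uu : EuclideanSpace ℝ ι → ι → ℝ := fun x i => x i
  let vv : (ι → ℝ) → EuclideanSpace ℝ ι := fun x => WithLp.toLp 2 x
  have huv : ∀ x, uu (vv x) = x := fun x => rfl
  have hvu : ∀ x, vv (uu x) = x := fun x => rfl
  have huc : Continuous uu := by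
    change Continuous (fun (x : EuclideanSpace ℝ ι) (i : ι) => x i)
    fun_prop
  have hvc : Continuous vv := by
    change Continuous (fun (x : ι → ℝ) => (WithLp.toLp 2 x : EuclideanSpace ℝ ι))
    fun_prop
  let T : (ι → ℝ) → ι → ℝ := fun x i => max 0 (min 1 (x i - f x i))
  have hTK : ∀ x, T x ∈ cube ι := by
    intro x i
    exact ⟨le_max_left _ _, max_le zero_le_one (min_le_left _ _)⟩
  have hTc : ContinuousOn T (cube ι) := by
    apply continuousOn_pi.mpr
    intro i
    have h1 : Continuous (fun t : ℝ => max 0 (min 1 t)) := by fun_prop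
    have h2 : ContinuousOn (fun x : ι → ℝ => x i - f x i) (cube ι) :=
      (continuous_apply i).continuousOn.sub (hc i)
    exact h1.comp_continuousOn h2
  let K' : Set (EuclideanSpace ℝ ι) := uu ⁻¹' (cube ι)
  have hK'eq : K' = vv '' (cube ι) := by
    ext x
    constructor
    · intro hx
      exact ⟨uu x, hx, hvu x⟩
    · rintro ⟨y, hy, rfl⟩
      exact hy
  have hK'c : IsCompact K' := by
    rw [hK'eq]
    exact (cube_compact ι).image hvc
  have hK'conv : Convex ℝ K' := by
    intro x hx y hy a b ha hb hab i
    have h1 := hx i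
    have h2 := hy i
    change 0 ≤ a * x i + b * y i ∧ a * x i + b * y i ≤ 1
    constructor
    · exact add_nonneg (mul_nonneg ha h1.1) (mul_nonneg hb h2.1)
    · have h3 : a * x i ≤ a * 1 := mul_le_mul_of_nonneg_left h1.2 ha
      have h4 : b * y i ≤ b * 1 := mul_le_mul_of_nonneg_left h2.2 hb
      linarith
  have hK'ne : K'.Nonempty := ⟨vv (fun _ => 0), fun i => by
    change (0 : ℝ) ≤ 0 ∧ (0 : ℝ) ≤ 1
    exact ⟨le_rfl, zero_le_one⟩⟩
  obtain ⟨x', hx'K, hx'⟩ := Pool.Agent.H64.BU.brouwer_convex hK'c hK'conv hK'ne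
    (f := fun z => vv (T (uu z)))
    (hvc.comp_continuousOn (hTc.comp huc.continuousOn (fun z hz => hz)))
    (fun z _ => by
      change uu (vv (T (uu z))) ∈ cube ι
      rw [huv]
      exact hTK _)
  set x := uu x' with hx
  have hxK : x ∈ cube ι := hx'K
  have hfix : T x = x := by
    have h1 := congrArg uu hx'
    rw [huv] at h1
    exact h1
  refine ⟨x, hxK, ?_⟩
  intro i
  have he : max 0 (min 1 (x i - f x i)) = x i := congrFun hfix i
  have hb := hxK i
  rcases eq_or_lt_of_le hb.1 with hz | hz
  · -- `x i = 0`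
    have h2 := h0 x hxK i hz.symm
    by_contra hne
    have hlt : f x i < 0 := lt_of_le_of_ne h2 hne
    rw [← hz] at he
    have h3 : min 1 (0 - f x i) ≤ max 0 (min 1 (0 - f x i)) := le_max_right _ _
    rw [he] at h3
    rcases min_le_iff.mp h3 with h | h
    · linarith
    · linarith
  · rcases eq_or_lt_of_le hb.2 with ho | ho
    · -- `x i = 1`
      have h2 := h1 x hxK i ho
      by_contra hne
      have hlt : 0 < f x i := lt_of_le_of_ne h2 (fun h => hne h.symm)
      have h3 : max 0 (min 1 (x i - f x i)) < x i := by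
        rw [ho]
        apply max_lt one_pos
        apply min_lt_of_right_lt
        linarith
      rw [he] at h3
      exact lt_irrefl _ h3
    · -- inside
      rcases max_choice 0 (min 1 (x i - f x i)) with h | h
      · rw [h] at he
        linarith
      · rw [h] at he
        rcases min_choice 1 (x i - f x i) with h' | h'
        · rw [h'] at he
          linarith
        · rw [h'] at he
          linarith

/-- a version for `n = N + 1` pieces, cut off one after the other -/
theorem equalize {m N : ℕ} (B : Fin m → ℝ) (Φ : (Fin m × Fin N → ℝ) → Fin m → Fin (N + 1) → ℝ)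
    (hc : ∀ r k, ContinuousOn (fun x => Φ x r k) (cube (Fin m × Fin N)))
    (hpos : ∀ x ∈ cube (Fin m × Fin N), ∀ r k, 0 ≤ Φ x r k)
    (hs : ∀ x ∈ cube (Fin m × Fin N), ∀ r, ∑ k, Φ x r k = B r * (N + 1))
    (h0 : ∀ x ∈ cube (Fin m × Fin N), ∀ r (k : Fin N), x (r, k) = 0 → Φ x r k.castSucc = 0)
    (h1 : ∀ x ∈ cube (Fin m × Fin N), ∀ r (k : Fin N), x (r, k) = 1 →
      ∀ l : Fin (N + 1), k.castSucc < l → Φ x r l = 0) :
    ∃ x ∈ cube (Fin m × Fin N), ∀ r k, Φ x r k = B r := by
  classical
  -- the rest from `k` on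
  obtain ⟨x, hx, hz⟩ := miranda (ι := Fin m × Fin N)
    (fun x p => Φ x p.1 p.2.castSucc * (N - p.2 : ℝ) -
      ∑ l : Fin (N + 1), if p.2.castSucc < l then Φ x p.1 l else 0)
    (by
      intro p
      apply ContinuousOn.sub
      · exact (hc p.1 p.2.castSucc).mul continuousOn_const
      · apply continuousOn_finsetSum
        intro l _
        split_ifs
        · exact hc p.1 l
        · exact continuousOn_const)
    (by
      intro x hx p hp
      have h2 : Φ x p.1 p.2.castSucc = 0 := h0 x hx p.1 p.2 hp
      rw [h2, zero_mul, zero_sub, neg_nonpos]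
      apply Finset.sum_nonneg
      intro l _
      split_ifs
      · exact hpos x hx p.1 l
      · exact le_rfl)
    (by
      intro x hx p hp
      have h2 : ∑ l : Fin (N + 1), (if p.2.castSucc < l then Φ x p.1 l else 0) = 0 := by
        apply Finset.sum_eq_zero
        intro l _
        split_ifs with h
        · exact h1 x hx p.1 p.2 hp l h
        · rfl
      rw [h2, sub_zero]
      apply mul_nonneg (hpos x hx p.1 _)
      have : (p.2 : ℕ) < N := p.2.isLt
      have h3 : ((p.2 : ℕ) : ℝ) ≤ N := by exact_mod_cast this.le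
      linarith)
  refine ⟨x, hx, ?_⟩
  intro r
  -- all later entries are equal to the entry `k`
  have hstep : ∀ j : ℕ, ∀ k : Fin (N + 1), (k : ℕ) + j = N → ∀ l : Fin (N + 1), k ≤ l →
      Φ x r l = Φ x r (Fin.last N) := by
    intro j
    induction j with
    | zero =>
      intro k hk l hkl
      have : l = Fin.last N := by
        apply Fin.ext
        have h1 : (k : ℕ) ≤ l := hkl
        have h2 := l.isLt
        rw [Fin.val_last]
        omega
      rw [this]
    | succ j ih =>
      intro k hk l hkl
      have hkN : (k : ℕ) < N := by omega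
      have hk' := ih ⟨(k : ℕ) + 1, by omega⟩ (by
        change (k : ℕ) + 1 + j = N
        omega)
      rcases eq_or_lt_of_le hkl with h | h
      · subst h
        have h2 := hz (r, ⟨(k : ℕ), hkN⟩)
        simp only at h2
        have h3 : (⟨(k : ℕ), hkN⟩ : Fin N).castSucc = k := Fin.ext rfl
        rw [h3] at h2
        have h4 : ∑ l : Fin (N + 1), (if k < l then Φ x r l else 0) =
            (N - (k : ℕ) : ℝ) * Φ x r (Fin.last N) := by
          have h5 : ∑ l : Fin (N + 1), (if k < l then Φ x r l else 0) =
              ∑ l : Fin (N + 1), (if k < l then Φ x r (Fin.last N) else 0) := by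
            apply Finset.sum_congr rfl
            intro l _
            split_ifs with h6
            · exact hk' l h6
            · rfl
          rw [h5, ← Finset.sum_filter, Finset.sum_const, nsmul_eq_mul]
          congr 1
          have h7 : (Finset.univ.filter (fun l : Fin (N + 1) => k < l)) = Finset.Ioi k := by
            ext l
            simp
          rw [h7, Fin.card_Ioi]
          have h8 : N + 1 - 1 - (k : ℕ) = N - k := by omega
          rw [h8, Nat.cast_sub hkN.le]
        rw [h4] at h2
        have h9 : (0 : ℝ) < N - (k : ℕ) := by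
          have : ((k : ℕ) : ℝ) < N := by exact_mod_cast hkN
          linarith
        have h10 : (Φ x r k - Φ x r (Fin.last N)) * (N - (k : ℕ) : ℝ) = 0 := by
          linear_combination h2
        rcases mul_eq_zero.mp h10 with h11 | h11
        · linarith
        · exact absurd h11 h9.ne'
      · exact hk' l h
  have hall : ∀ k, Φ x r k = Φ x r (Fin.last N) := by
    intro k
    exact hstep N 0 (by simp) k (Fin.zero_le k)
  have hsum := hs x hx r
  rw [Finset.sum_congr rfl (fun k _ => hall k), Finset.sum_const, Finset.card_univ,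
    Fintype.card_fin, nsmul_eq_mul] at hsum
  intro k
  rw [hall k]
  have hN : ((N : ℝ) + 1) ≠ 0 := by positivity
  push_cast at hsum
  have h2 : (Φ x r (Fin.last N) - B r) * ((N : ℝ) + 1) = 0 := by linear_combination hsum
  rcases mul_eq_zero.mp h2 with h3 | h3
  · linarith
  · exact absurd h3 hN

end Pool.Agent.H53.EFS
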