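import Pool.Agent.H53.EFS.Hyp
import Pool.Agent.H53.EFS.Mir

/-!
Partitions by hyperplanes in a fixed order.
-/

namespace Pool.Agent.H53.EFS

open Finset MeasureTheory

variable {d m N : ℕ}

/-- the pieces: `pc k` is cut off by the hyperplane `k` from what is left by the hyperplanes
before it; the last piece is the rest -/
def pc (G : (Fin m → ℝ) → EuclideanSpace ℝ (Fin d) × ℝ) (x : Fin m × Fin N → ℝ)
    (k : Fin (N + 1)) : Set (EuclideanSpace ℝ (Fin d)) :=
  {y | (∀ j : Fin N, j.castSucc < k → aff (G (fun r => x (r, j))) y ≤ 0) ∧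
    (∀ j : Fin N, j.castSucc = k → 0 ≤ aff (G (fun r => x (r, j))) y)}

variable (G : (Fin m → ℝ) → EuclideanSpace ℝ (Fin d) × ℝ)

theorem pc_convex (x : Fin m × Fin N → ℝ) (k : Fin (N + 1)) : Convex ℝ (pc G x k) := by
  intro y hy z hz a b ha hb hab
  refine ⟨fun j hj => ?_, fun j hj => ?_⟩
  · rw [aff_aff _ y z a b hab]
    have h1 := mul_nonneg ha (neg_nonneg.mpr (hy.1 j hj))
    have h2 := mul_nonneg hb (neg_nonneg.mpr (hz.1 j hj))
    linarith
  · rw [aff_aff _ y z a b hab]
    exact add_nonneg (mul_nonneg ha (hy.2 j hj)) (mul_nonneg hb (hz.2 j hj))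

theorem pc_closed (x : Fin m × Fin N → ℝ) (k : Fin (N + 1)) : IsClosed (pc G x k) := by
  have : pc G x k = (⋂ j : Fin N, ⋂ (_ : j.castSucc < k),
      {y | aff (G (fun r => x (r, j))) y ≤ 0}) ∩ ⋂ j : Fin N, ⋂ (_ : j.castSucc = k),
      {y | 0 ≤ aff (G (fun r => x (r, j))) y} := by
    ext y
    simp [pc]
  rw [this]
  apply IsClosed.inter
  · exact isClosed_iInter fun j => isClosed_iInter fun _ =>
      isClosed_le (aff_cont _) continuous_const
  · exact isClosed_iInter fun j => isClosed_iInter fun _ =>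
      isClosed_le continuous_const (aff_cont _)

theorem pc_cover (x : Fin m × Fin N → ℝ) : (⋃ k, pc G x k) = Set.univ := by
  classical
  rw [Set.eq_univ_iff_forall]
  intro y
  by_cases hex : ∃ k : ℕ, ∃ h : k < N, 0 ≤ aff (G (fun r => x (r, ⟨k, h⟩))) y
  · obtain ⟨hkN, hk⟩ := Nat.find_spec hex
    refine Set.mem_iUnion.mpr ⟨(⟨Nat.find hex, hkN⟩ : Fin N).castSucc, ?_, ?_⟩
    · intro j hj
      have hj' : (j : ℕ) < Nat.find hex := hj
      have h1 := Nat.find_min hex hj'
      push Not at h1
      exact (h1 j.isLt).le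
    · intro j hj
      have hj' : j = ⟨Nat.find hex, hkN⟩ := Fin.castSucc_injective _ hj
      rw [hj']
      exact hk
  · push Not at hex
    refine Set.mem_iUnion.mpr ⟨Fin.last N, ?_, ?_⟩
    · intro j _
      exact (hex j j.isLt).le
    · intro j hj
      have h1 : (j : ℕ) = N := congrArg Fin.val hj
      have h2 := j.isLt
      omega

theorem pc_disj (hG : ∀ s, G s ≠ 0) (x : Fin m × Fin N → ℝ) (k l : Fin (N + 1))
    (hkl : k ≠ l) : Disjoint (interior (pc G x k)) (interior (pc G x l)) := by
  wlog hlt : k < l generalizing k l with H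
  · exact (H l k hkl.symm (lt_of_le_of_ne (not_lt.mp hlt) hkl.symm)).symm
  rw [Set.disjoint_iff_inter_eq_empty]
  by_contra hne
  have hne' : (interior (pc G x k) ∩ interior (pc G x l)).Nonempty :=
    Set.nonempty_iff_ne_empty.mpr hne
  have hopen : IsOpen (interior (pc G x k) ∩ interior (pc G x l)) :=
    isOpen_interior.inter isOpen_interior
  have hpos := hopen.measure_pos (volume : Measure (EuclideanSpace ℝ (Fin d))) hne'
  have hk1 : (k : ℕ) < N := by
    have := l.isLt
    have h2 : (k : ℕ) < l := hlt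
    omega
  have hk : (⟨(k : ℕ), hk1⟩ : Fin N).castSucc = k := Fin.ext rfl
  have hsub : interior (pc G x k) ∩ interior (pc G x l) ⊆
      {y | aff (G (fun r => x (r, ⟨(k : ℕ), hk1⟩))) y = 0} := by
    rintro y ⟨h1, h2⟩
    have h3 := (interior_subset h1).2 ⟨(k : ℕ), hk1⟩ hk
    have h4 := (interior_subset h2).1 ⟨(k : ℕ), hk1⟩ (by rw [hk]; exact hlt)
    exact le_antisymm h4 h3
  have := measure_mono_null hsub (aff_null _ (hG _))
  rw [this] at hpos
  exact lt_irrefl _ hpos

theorem pc_cont (hGc : Continuous G) (hG : ∀ s, G s ≠ 0)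
    (μ : Measure (EuclideanSpace ℝ (Fin d))) [IsFiniteMeasure μ]
    (hμ : μ.AbsolutelyContinuous volume) (x : Fin m × Fin N → ℝ) (k : Fin (N + 1)) :
    ContinuousAt (fun z : Fin m × Fin N → ℝ => μ (pc G z k)) x := by
  refine tendsto_measure_of_ae_tendsto_indicator_of_isFiniteMeasure (nhds x)
    (pc_closed G x k).measurableSet (fun z => (pc_closed G z k).measurableSet) ?_
  have hnull : ∀ᵐ y ∂μ, ∀ j : Fin N, aff (G (fun r => x (r, j))) y ≠ 0 := by
    rw [ae_all_iff]
    intro j
    have h0 := hμ (aff_null (G (fun r => x (r, j))) (hG _))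
    rw [ae_iff]
    simpa using h0
  filter_upwards [hnull] with y hy
  have hcont : ∀ j : Fin N, Continuous fun z : Fin m × Fin N → ℝ =>
      aff (G (fun r => z (r, j))) y := by
    intro j
    have h1 : Continuous (fun z : Fin m × Fin N → ℝ => fun r : Fin m => z (r, j)) := by fun_prop
    exact (aff_cont_p y).comp (hGc.comp h1)
  by_cases hmem : y ∈ pc G x k
  · have hev1 : ∀ᶠ z in nhds x, ∀ j : Fin N, j.castSucc < k →
        aff (G (fun r => z (r, j))) y ≤ 0 := by
      rw [Filter.eventually_all]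
      intro j
      by_cases hj : j.castSucc < k
      · have h1 : aff (G (fun r => x (r, j))) y < 0 := lt_of_le_of_ne (hmem.1 j hj) (hy j)
        filter_upwards [(hcont j).continuousAt.eventually (gt_mem_nhds h1)] with z hz _
        exact hz.le
      · exact Filter.Eventually.of_forall fun z h1 => absurd h1 hj
    have hev2 : ∀ᶠ z in nhds x, ∀ j : Fin N, j.castSucc = k →
        0 ≤ aff (G (fun r => z (r, j))) y := by
      rw [Filter.eventually_all]
      intro j
      by_cases hj : j.castSucc = k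
      · have h1 : 0 < aff (G (fun r => x (r, j))) y :=
          lt_of_le_of_ne (hmem.2 j hj) (fun h => hy j h.symm)
        filter_upwards [(hcont j).continuousAt.eventually (lt_mem_nhds h1)] with z hz _
        exact hz.le
      · exact Filter.Eventually.of_forall fun z h1 => absurd h1 hj
    filter_upwards [hev1, hev2] with z h1 h2
    exact iff_of_true ⟨h1, h2⟩ hmem
  · have hex : (∃ j : Fin N, j.castSucc < k ∧ 0 < aff (G (fun r => x (r, j))) y) ∨
        (∃ j : Fin N, j.castSucc = k ∧ aff (G (fun r => x (r, j))) y < 0) := by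
      by_contra hcon
      push Not at hcon
      exact hmem ⟨hcon.1, hcon.2⟩
    rcases hex with ⟨j, hj1, hj2⟩ | ⟨j, hj1, hj2⟩
    · filter_upwards [(hcont j).continuousAt.eventually (lt_mem_nhds hj2)] with z hz
      refine iff_of_false ?_ hmem
      intro h
      exact absurd (h.1 j hj1) (not_le.mpr hz)
    · filter_upwards [(hcont j).continuousAt.eventually (gt_mem_nhds hj2)] with z hz
      refine iff_of_false ?_ hmem
      intro h
      exact absurd (h.2 j hj1) (not_le.mpr hz)

end Pool.Agent.H53.EFS
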