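import Pool.Agent.H53.EFG.Hier

/-!
Envy-free partitions for symmetric families.
-/

namespace Pool.Agent.H53.EFS

open Finset MeasureTheory Pool.Agent.H53.EFG

/-- affine bijections are homeomorphisms -/
noncomputable def hm {d : ℕ} (g : EuclideanSpace ℝ (Fin d) ≃ᵃ[ℝ] EuclideanSpace ℝ (Fin d)) :
    EuclideanSpace ℝ (Fin d) ≃ₜ EuclideanSpace ℝ (Fin d) where
  toEquiv := g.toEquiv
  continuous_toFun := (g : EuclideanSpace ℝ (Fin d) →ᵃ[ℝ]
    EuclideanSpace ℝ (Fin d)).continuous_of_finiteDimensional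
  continuous_invFun := (g.symm : EuclideanSpace ℝ (Fin d) →ᵃ[ℝ]
    EuclideanSpace ℝ (Fin d)).continuous_of_finiteDimensional

theorem hm_apply {d : ℕ} (g : EuclideanSpace ℝ (Fin d) ≃ᵃ[ℝ] EuclideanSpace ℝ (Fin d)) :
    ⇑(hm g) = ⇑g := rfl

theorem img_conv {d : ℕ} (g : EuclideanSpace ℝ (Fin d) ≃ᵃ[ℝ] EuclideanSpace ℝ (Fin d))
    (S : Set (EuclideanSpace ℝ (Fin d))) (hS : Convex ℝ S) : Convex ℝ (g '' S) :=
  hS.affine_image (g : EuclideanSpace ℝ (Fin d) →ᵃ[ℝ] EuclideanSpace ℝ (Fin d))

theorem conv_ae {d : ℕ} (μ : Measure (EuclideanSpace ℝ (Fin d)))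
    (hac : μ.AbsolutelyContinuous volume) (A B : Set (EuclideanSpace ℝ (Fin d)))
    (hA : Convex ℝ A) (hB : Convex ℝ B) (hAc : IsClosed A) (hBc : IsClosed B)
    (h : Disjoint (interior A) (interior B)) : AEDisjoint μ A B := by
  have h1 := hac (hA.addHaar_frontier volume)
  have h2 := hac (hB.addHaar_frontier volume)
  refine measure_mono_null ?_ (measure_union_null h1 h2)
  rintro y ⟨hyA, hyB⟩
  by_contra hcon
  simp only [Set.mem_union, not_or] at hcon
  rw [hAc.frontier_eq, hBc.frontier_eq] at hcon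
  have h3 : y ∈ interior A := by
    by_contra h'
    exact hcon.1 ⟨hyA, h'⟩
  have h4 : y ∈ interior B := by
    by_contra h'
    exact hcon.2 ⟨hyB, h'⟩
  exact Set.disjoint_left.mp h h3 h4

theorem outer1 (n d : ℕ) (hn : n = 1 ∨ IsPrimePow n) (hd : 0 < d) (b : Fin d → ℕ)
    (ι : Fin d → Type) [∀ r, Fintype (ι r)] (hι : ∀ r, Fintype.card (ι r) = b r * n)
    (μ : ∀ r, ι r → Measure (EuclideanSpace ℝ (Fin d)))
    (hμ : ∀ r i, IsProbabilityMeasure (μ r i))
    (hac : ∀ r i, (μ r i).AbsolutelyContinuous volume) :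
    ∃ C : Fin n → Set (EuclideanSpace ℝ (Fin d)),
      (∀ i, Convex ℝ (C i)) ∧ (∀ i, IsClosed (C i)) ∧ (⋃ i, C i) = Set.univ ∧
      (∀ i j, i ≠ j → Disjoint (interior (C i)) (interior (C j))) ∧
      ∀ r, ∃ π : ι r → Fin n, (∀ j, Nat.card {i // π i = j} = b r) ∧
        (∀ i j, μ r i (C j) ≤ μ r i (C (π i))) := by
  rcases hn with rfl | hn
  · refine ⟨fun _ => Set.univ, fun _ => convex_univ, fun _ => isClosed_univ,
      Set.iUnion_const _, fun i j hij => absurd (Subsingleton.elim i j) hij, fun r => ?_⟩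
    refine ⟨fun _ => 0, fun j => ?_, fun i j => le_rfl⟩
    have h1 : ∀ i : ι r, (0 : Fin 1) = j := fun i => Subsingleton.elim _ _
    have h2 : Nat.card {i : ι r // (0 : Fin 1) = j} = Nat.card (ι r) :=
      Nat.card_congr (Equiv.subtypeUnivEquiv h1)
    rw [h2, Nat.card_eq_fintype_card, hι r, mul_one]
  · obtain ⟨C, h1, h2, h3, h4, h5⟩ := outer n d hn hd b ι hι μ hμ hac
    refine ⟨C, h1, h2, h3, h4, fun r => ?_⟩
    obtain ⟨π, h6, h7, _⟩ := h5 r
    exact ⟨π, h6, h7⟩

theorem sym (w q d : ℕ) (hw : 0 < w) (hq : q = 1 ∨ IsPrimePow q) (hd : 0 < d) (b : Fin d → ℕ)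
    (ι : Fin d → Type) [∀ r, Fintype (ι r)] (hι : ∀ r, Fintype.card (ι r) = b r * (w * q))
    (g : Fin w → EuclideanSpace ℝ (Fin d) ≃ᵃ[ℝ] EuclideanSpace ℝ (Fin d))
    (D : Set (EuclideanSpace ℝ (Fin d))) (hD : Convex ℝ D) (hDc : IsClosed D)
    (hcov : (⋃ j, g j '' D) = Set.univ)
    (hdis : ∀ i j, i ≠ j → Disjoint (interior (g i '' D)) (interior (g j '' D)))
    (μ : ∀ r, ι r → Measure (EuclideanSpace ℝ (Fin d)))
    (hμ : ∀ r i, IsProbabilityMeasure (μ r i))
    (hac : ∀ r i, (μ r i).AbsolutelyContinuous volume)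
    (hinv : ∀ r i j, (μ r i).map (g j) = μ r i) :
    ∃ C : Fin (w * q) → Set (EuclideanSpace ℝ (Fin d)),
      (∀ i, Convex ℝ (C i)) ∧ (∀ i, IsClosed (C i)) ∧ (⋃ i, C i) = Set.univ ∧
      (∀ i j, i ≠ j → Disjoint (interior (C i)) (interior (C j))) ∧
      ∀ r, ∃ π : ι r → Fin (w * q), (∀ j, Nat.card {i // π i = j} = b r) ∧
        (∀ i j, μ r i (C j) ≤ μ r i (C (π i))) := by
  classical
  have hw0 : (w : ENNReal) ≠ 0 := by
    simp only [ne_eq, Nat.cast_eq_zero]
    omega
  have hwt : (w : ENNReal) ≠ ⊤ := ENNReal.natCast_ne_top w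
  -- images of measurable sets
  have himg : ∀ r i j (S : Set (EuclideanSpace ℝ (Fin d))), IsClosed S →
      μ r i (g j '' S) = μ r i S := by
    intro r i j S hS
    have hc : IsClosed (g j '' S) := (hm (g j)).isClosedMap S hS
    have h1 : (μ r i).map (g j) (g j '' S) = μ r i S := by
      have hgm : Measurable (g j) := (hm (g j)).continuous.measurable
      rw [Measure.map_apply hgm hc.measurableSet,
        Set.preimage_image_eq S (g j).injective]
    rw [← h1, hinv r i j]
  have hDm : ∀ r i, (w : ENNReal) * μ r i D = 1 := by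
    intro r i
    have := hμ r i
    have h1 : μ r i (⋃ j, g j '' D) = ∑' j, μ r i (g j '' D) := by
      apply measure_iUnion₀
      · intro j j' hjj
        exact conv_ae (μ r i) (hac r i) _ _ (img_conv (g j) D hD)
          (img_conv (g j') D hD) ((hm (g j)).isClosedMap D hDc)
          ((hm (g j')).isClosedMap D hDc) (hdis j j' hjj)
      · intro j
        exact ((hm (g j)).isClosedMap D hDc).measurableSet.nullMeasurableSet
    rw [hcov, measure_univ, tsum_fintype] at h1
    rw [h1, Finset.sum_congr rfl (fun j _ => himg r i j D hDc), Finset.sum_const,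
      Finset.card_univ, Fintype.card_fin, nsmul_eq_mul]
  let μ' : ∀ r, ι r → Measure (EuclideanSpace ℝ (Fin d)) := fun r i =>
    (w : ENNReal) • (μ r i).restrict D
  have hμ' : ∀ r i (S : Set (EuclideanSpace ℝ (Fin d))), IsClosed S →
      μ' r i S = w * μ r i (S ∩ D) := by
    intro r i S hS
    simp only [μ', Measure.smul_apply, smul_eq_mul]
    rw [Measure.restrict_apply hS.measurableSet]
  obtain ⟨C', hC1, hC2, hC3, hC4, hC5⟩ := outer1 q d hq hd (fun r => b r * w) ι
    (fun r => by rw [hι r, mul_assoc]) μ'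
    (fun r i => ⟨by
      rw [hμ' r i _ isClosed_univ, Set.univ_inter]
      exact hDm r i⟩)
    (fun r i => by
      have h1 : (μ r i).restrict D ≪ volume :=
        (Measure.absolutelyContinuous_of_le Measure.restrict_le_self).trans (hac r i)
      exact h1.smul_left _)
  let e : Fin w × Fin q ≃ Fin (w * q) := finProdFinEquiv
  have hcl : ∀ k, IsClosed (C' k ∩ D) := fun k => (hC2 k).inter hDc
  refine ⟨fun c => g (e.symm c).1 '' (C' (e.symm c).2 ∩ D), ?_, ?_, ?_, ?_, ?_⟩
  · intro c
    exact img_conv _ _ ((hC1 _).inter hD)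
  · intro c
    exact (hm (g _)).isClosedMap _ (hcl _)
  · rw [Set.eq_univ_iff_forall]
    intro y
    have h1 : y ∈ ⋃ j, g j '' D := by rw [hcov]; exact Set.mem_univ y
    obtain ⟨j, z, hz, hzy⟩ := Set.mem_iUnion.mp h1
    have h2 : z ∈ ⋃ k, C' k := by rw [hC3]; exact Set.mem_univ z
    obtain ⟨k, hk⟩ := Set.mem_iUnion.mp h2
    refine Set.mem_iUnion.mpr ⟨e (j, k), ?_⟩
    rw [Equiv.symm_apply_apply]
    exact ⟨z, ⟨hk, hz⟩, hzy⟩
  · intro c c' hcc
    by_cases hj : (e.symm c).1 = (e.symm c').1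
    · have hk : (e.symm c).2 ≠ (e.symm c').2 := by
        intro hk
        exact hcc (e.symm.injective (Prod.ext hj hk))
      simp only
      rw [← hj]
      have h1 : ∀ S : Set (EuclideanSpace ℝ (Fin d)), interior (g (e.symm c).1 '' S) =
          g (e.symm c).1 '' interior S := fun S => ((hm (g (e.symm c).1)).image_interior S).symm
      rw [h1, h1]
      rw [Set.disjoint_image_iff (g (e.symm c).1).injective]
      exact (hC4 _ _ hk).mono (interior_mono Set.inter_subset_left)
        (interior_mono Set.inter_subset_left)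
    · exact (hdis _ _ hj).mono (interior_mono (Set.image_mono Set.inter_subset_right))
        (interior_mono (Set.image_mono Set.inter_subset_right))
  · intro r
    obtain ⟨π', hπ1, hπ2⟩ := hC5 r
    have hwr : (0 : ℝ) < w := by exact_mod_cast hw
    obtain ⟨π, hπ3, hπ4⟩ := hall (b := b r) (fun (i : ι r) (c : Fin (w * q)) =>
      if (e.symm c).2 = π' i then 1 / (w : ℝ) else 0)
      (fun i c => by
        split_ifs
        · positivity
        · exact le_rfl)
      (fun i => by
        rw [← Equiv.sum_comp e, Fintype.sum_prod_type]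
        simp only [Equiv.symm_apply_apply, Finset.sum_ite_eq', Finset.mem_univ, if_true,
          Finset.sum_const, Finset.card_univ, Fintype.card_fin, nsmul_eq_mul]
        exact mul_one_div_cancel hwr.ne')
      (fun c => by
        have h1 := hπ1 (e.symm c).2
        rw [Nat.card_eq_fintype_card, Fintype.card_subtype] at h1
        have h2 : ∑ i : ι r, (if (e.symm c).2 = π' i then 1 / (w : ℝ) else 0) =
            ((b r * w : ℕ) : ℝ) * (1 / w) := by
          rw [← h1, ← Finset.sum_filter, Finset.sum_const, nsmul_eq_mul]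
          congr 3
          ext i
          simp only [Finset.mem_filter, Finset.mem_univ, true_and]
          exact eq_comm
        rw [h2]
        push_cast
        field_simp)
    refine ⟨π, hπ3, fun i c => ?_⟩
    have h1 : (e.symm (π i)).2 = π' i := by
      have h2 := hπ4 i
      by_contra hne
      simp only [if_neg hne, lt_irrefl] at h2
    rw [himg r i _ _ (hcl _), himg r i _ _ (hcl _), h1]
    have h3 := hπ2 i (e.symm c).2
    rw [hμ' r i _ (hC2 _), hμ' r i _ (hC2 _)] at h3
    exact (ENNReal.mul_le_mul_iff_right hw0 hwt).mp h3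

end Pool.Agent.H53.EFS
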